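import Mathlib

namespace Pool.Agent.Results.MP_85e89d_gt.Nowhere

open Set

/-- the Euclidean plane -/
abbrev E := EuclideanSpace ℝ (Fin 2)

/-- `A` is a differentiable rectifiable half-open arc of length at least `δ` with endpoints
`p` (included) and `q` (not included) -/
def Arc (δ : ℝ) (A : Set E) (p q : E) : Prop :=
  ∃ γ : ℝ → E, A = γ '' Ico 0 1 ∧ γ 0 = p ∧ γ 1 = q ∧ InjOn γ (Icc 0 1) ∧
    (∀ t ∈ Icc (0 : ℝ) 1, ∃ v ≠ 0, HasDerivAt γ v t) ∧
    ENNReal.ofReal δ ≤ eVariationOn γ (Ico 0 1) ∧ eVariationOn γ (Ico 0 1) < ⊤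

open Classical in
noncomputable def a (y : ℝ) : ℝ :=
  if h : ∃ s : ℚ, ∃ r : ℚ, y = r + √2 * s then (h.choose : ℝ) else 0

lemma a_eq (r s : ℚ) : a (r + √2 * s) = s := by
  have h : ∃ s' : ℚ, ∃ r' : ℚ, (r : ℝ) + √2 * s = r' + √2 * s' := ⟨s, r, rfl⟩
  rw [a, dif_pos h]
  obtain ⟨r', e⟩ := h.choose_spec
  generalize h.choose = s' at e
  by_contra hne
  have h2 : (s' : ℝ) - s ≠ 0 := sub_ne_zero.mpr hne
  exact irrational_sqrt_two ⟨(r - r') / (s' - s), by push_cast; field_simp; linarith⟩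

def seg (p : E) : Set E := (fun t : ℝ => p + t • !₂[1, 0]) '' Ico 0 1

lemma mem_seg (p x : E) : x ∈ seg p ↔ p 0 ≤ x 0 ∧ x 0 < p 0 + 1 ∧ x 1 = p 1 := by
  constructor
  · rintro ⟨t, ht, rfl⟩
    simp [ht.1, ht.2]
  · rintro ⟨h1, h2, h3⟩
    exact ⟨x 0 - p 0, ⟨by linarith, by linarith⟩, by ext i; fin_cases i <;> simp [h3]⟩

lemma arc (p : E) : Arc 1 (seg p) p (p + !₂[1, 0]) := by
  have n : ‖(!₂[1, 0] : E)‖ = 1 := by simp [EuclideanSpace.norm_eq]
  have iso : Isometry fun t : ℝ => p + t • (!₂[1, 0] : E) := Isometry.of_dist_eq fun s t => by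
    rw [dist_add_left, dist_eq_norm, ← sub_smul, norm_smul, n, mul_one, dist_eq_norm]
  have v : eVariationOn (fun t : ℝ => p + t • (!₂[1, 0] : E)) (Ico 0 1) =
      eVariationOn id (Ico (0 : ℝ) 1) := by
    simp only [eVariationOn, iso.edist_eq, id]
  refine ⟨_, rfl, by simp, by simp, iso.injective.injOn, fun t _ => ⟨!₂[1, 0], ?_, ?_⟩, ?_, ?_⟩
  · intro h; rw [h] at n; simp at n
  · simpa using ((hasDerivAt_id t).smul_const (!₂[1, 0] : E)).const_add p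
  · rw [v]
    refine ENNReal.le_of_forall_pos_le_add fun ε hε _ => ?_
    rcases le_or_gt 1 (ε : ℝ) with h | h
    · exact le_add_left (by rw [← ENNReal.ofReal_coe_nnreal]; exact ENNReal.ofReal_le_ofReal h)
    · have := eVariationOn.edist_le (id : ℝ → ℝ) (s := Ico 0 1) (x := 1 - ε) (y := 0)
        ⟨by linarith, by simpa using hε⟩ ⟨le_rfl, one_pos⟩
      refine le_trans ?_ (add_le_add_left this _)
      rw [edist_dist, Real.dist_eq, id, id, sub_zero, abs_of_pos (by linarith),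
        ← ENNReal.ofReal_coe_nnreal, ← ENNReal.ofReal_add (by linarith) (NNReal.coe_nonneg ε)]
      simp
  · rw [v]
    refine lt_of_le_of_lt (eVariationOn.mono _ Ico_subset_Icc_self) ?_
    have := (monotoneOn_id (s := Icc (0 : ℝ) 1)).eVariationOn_eq (a := 0) (b := 1)
      (by simp) (by simp)
    rw [inter_self] at this
    exact this.trans_lt ENNReal.ofReal_lt_top

theorem result : ∃ F : Set (Set E), (∀ A ∈ F, ∃ p q, Arc 1 A p q) ∧ F.PairwiseDisjoint id ∧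
    ⋃₀ F = univ ∧ ∀ x : E, ∀ N ∈ nhds x, ∃ A ∈ F, ∃ p q, Arc 1 A p q ∧ p ∈ N := by
  refine ⟨{A | ∃ (n : ℤ) (y : ℝ), A = seg !₂[a y + n, y]}, ?_, ?_, ?_, fun x N hN => ?_⟩
  · rintro _ ⟨n, y, rfl⟩; exact ⟨_, _, arc _⟩
  · rintro _ ⟨n, y, rfl⟩ _ ⟨m, z, rfl⟩ hne
    refine disjoint_left.mpr fun x h1 h2 => hne ?_
    simp only [id, mem_seg] at h1 h2
    simp at h1 h2
    obtain rfl : y = z := h1.2.2.symm.trans h2.2.2
    have a1 : (n : ℝ) < m + 1 := by linarith [h1.1, h2.2.1]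
    have a2 : (m : ℝ) < n + 1 := by linarith [h2.1, h1.2.1]
    obtain rfl : n = m := by
      have b1 : n < m + 1 := by exact_mod_cast a1
      have b2 : m < n + 1 := by exact_mod_cast a2
      omega
    rfl
  · refine eq_univ_of_forall fun x => ⟨_, ⟨⌊x 0 - a (x 1)⌋, x 1, rfl⟩, ?_⟩
    rw [mem_seg]
    simp
    constructor <;> linarith [Int.floor_le (x 0 - a (x 1)), Int.lt_floor_add_one (x 0 - a (x 1))]
  · obtain ⟨ε, hε, hb⟩ := Metric.mem_nhds_iff.mp hN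
    obtain ⟨s, s1, s2⟩ := exists_rat_btwn (show x 0 < x 0 + ε / 2 by linarith)
    obtain ⟨r, r1, r2⟩ := exists_rat_btwn (show x 1 - √2 * s < x 1 - √2 * s + ε / 2 by linarith)
    refine ⟨_, ⟨0, r + √2 * s, rfl⟩, _, _, arc _, hb ?_⟩
    rw [Metric.mem_ball, EuclideanSpace.dist_eq, Real.sqrt_lt' hε, Fin.sum_univ_two]
    simp [a_eq, Real.dist_eq]
    nlinarith

end Pool.Agent.Results.MP_85e89d_gt.Nowhere
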